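import Pool.Agent.Helper50.CT.Goals

/-!
# Project CT (MP_ccd65d_gt), packet LAB: locally constant labels
-/

set_option autoImplicit false

open Set Filter Topology

namespace Pool.Agent.Helper89.CT

/-- Packet LAB. -/
theorem goalLAB : Pool.Agent.Helper50.CT.StmtLAB := by
  intro X Γ _ _ G U Lab h1 h2 h3 x y β β' hj hx hy
  obtain ⟨γ, hγ⟩ := hj
  have hcl : IsClopen {t : unitInterval | ∀ b, Lab (γ t) b → b - β ∈ G} := by
    constructor
    · rw [← isOpen_compl_iff, isOpen_iff_mem_nhds]
      intro t ht
      simp only [mem_compl_iff, mem_ofPred_eq, not_forall] at ht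
      obtain ⟨b, hb, hbG⟩ := ht
      have he := γ.continuous.continuousAt.eventually (h3 (γ t) (hγ t) b hb)
      filter_upwards [he] with s hs
      intro hS
      exact hbG (hS b hs)
    · rw [isOpen_iff_mem_nhds]
      intro t ht
      obtain ⟨b, hb⟩ := h1 (γ t) (hγ t)
      have he := γ.continuous.continuousAt.eventually (h3 (γ t) (hγ t) b hb)
      filter_upwards [he] with s hs
      intro c hc
      have e1 := h2 (γ s) (hγ s) b c hs hc
      have e2 : b - β ∈ G := ht b hb
      have e3 : c - β = (c - b) + (b - β) := by abel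
      rw [e3]
      exact G.add_mem e1 e2
  have h0 : (0 : unitInterval) ∈ {t : unitInterval | ∀ b, Lab (γ t) b → b - β ∈ G} := by
    intro b hb
    have hx0 : γ 0 ∈ U := hγ 0
    rw [γ.source] at hb hx0
    exact h2 x hx0 β b hx hb
  have huniv := hcl.eq_univ ⟨0, h0⟩
  have h1' : (1 : unitInterval) ∈ {t : unitInterval | ∀ b, Lab (γ t) b → b - β ∈ G} := by
    rw [huniv]; exact mem_univ _
  have := h1' β' (by rw [γ.target]; exact hy)
  exact this

end Pool.Agent.Helper89.CT
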